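import Pool.Agent.Q234.KG.Stm3

/-!
# Project KG (helper234), job KG-PU: multiplication of a PEPS by a phase of finite range
-/

set_option autoImplicit false

open scoped BigOperators
open Finset Pool.Agent.TH235.PP

namespace Pool.Agent.Q181.KG.PU

open Pool.Agent.Q234.KG

theorem reindex {K K' : Type} [Fintype K] [Fintype K'] (e : K ≃ K') {d L : ℕ} [NeZero L]
    (A : Site L → Fin d → K → K → K → K → ℂ) :
    contract A =
      contract (fun x s a b c f => A x s (e.symm a) (e.symm b) (e.symm c) (e.symm f)) := by
  funext s
  unfold contract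
  refine Fintype.sum_equiv (Equiv.arrowCongr (Equiv.refl _) e) _ _ fun h => ?_
  refine Fintype.sum_equiv (Equiv.arrowCongr (Equiv.refl _) e) _ _ fun v => ?_
  simp

/-- the window of `s` at `x` -/
def wn {d m L : ℕ} (s : Site L → Fin d) (x : Site L) : Fin m × Fin m → Fin d := fun y => s (sh x y)

/-- the local condition of the tensor -/
def cond {d m : ℕ} (s : Fin d) (a b c e : Fin m × Fin m → Fin d) : Prop :=
  b = e ∧ (∀ y : Fin m × Fin m, (y.1 : ℕ) = 0 → (y.2 : ℕ) = 0 → b y = s) ∧
  (∀ y z : Fin m × Fin m, (y.1 : ℕ) = z.1 + 1 → (y.2 : ℕ) = z.2 → a y = b z) ∧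
  (∀ y z : Fin m × Fin m, (y.1 : ℕ) = z.1 → (y.2 : ℕ) = z.2 + 1 → c y = b z)

theorem cond_iff {d m L : ℕ} [NeZero L] (s : Site L → Fin d)
    (h v : Site L → Fin m × Fin m → Fin d) :
    (∀ x : Site L, cond (s x) (h (x.1 - 1, x.2)) (h x) (v (x.1, x.2 - 1)) (v x)) ↔
      h = wn s ∧ v = wn s := by
  constructor
  · intro H
    have key : ∀ n : ℕ, ∀ (x : Site L) (y : Fin m × Fin m), (y.1 : ℕ) + y.2 = n →
        h x y = s (sh x y) := by
      intro n
      induction n with
      | zero =>
        intro x y hy
        have h1 : (y.1 : ℕ) = 0 := by omega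
        have h2 : (y.2 : ℕ) = 0 := by omega
        rw [(H x).2.1 y h1 h2]
        congr 1
        unfold sh
        rw [h1, h2]
        simp
      | succ n ih =>
        intro x y hy
        by_cases h1 : (y.1 : ℕ) = 0
        · have h2 : (y.2 : ℕ) ≠ 0 := by omega
          have hlt : (y.2 : ℕ) - 1 < m := by have := y.2.2; omega
          have a := (H (x.1, x.2 + 1)).2.2.2 y (y.1, ⟨(y.2 : ℕ) - 1, hlt⟩) rfl
            (by simp only []; omega)
          simp only [add_sub_cancel_right] at a
          rw [(H x).1, a, ih _ _ (by simp only []; omega)]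
          congr 1
          unfold sh
          ext
          · rfl
          · simp only []
            have h3 : ((y.2 : ℕ) : ZMod L) = (((y.2 : ℕ) - 1 : ℕ) : ZMod L) + 1 := by
              rw [← Nat.cast_succ]
              congr 1
              omega
            rw [h3]
            ring
        · have hlt : (y.1 : ℕ) - 1 < m := by have := y.1.2; omega
          have a := (H (x.1 + 1, x.2)).2.2.1 y (⟨(y.1 : ℕ) - 1, hlt⟩, y.2)
            (by simp only []; omega) rfl
          simp only [add_sub_cancel_right] at a
          rw [a, ih _ _ (by simp only []; omega)]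
          congr 1
          unfold sh
          ext
          · simp only []
            have h3 : ((y.1 : ℕ) : ZMod L) = (((y.1 : ℕ) - 1 : ℕ) : ZMod L) + 1 := by
              rw [← Nat.cast_succ]
              congr 1
              omega
            rw [h3]
            ring
          · rfl
    have h1 : h = wn s := by
      funext x y
      exact key _ x y rfl
    refine ⟨h1, ?_⟩
    funext x
    rw [← (H x).1, h1]
  · rintro ⟨rfl, rfl⟩ x
    refine ⟨rfl, fun y h1 h2 => ?_, fun y z h1 h2 => ?_, fun y z h1 h2 => ?_⟩
    · unfold wn sh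
      rw [h1, h2]
      simp
    · unfold wn sh
      simp only []
      rw [h1, h2]
      congr 1
      ext
      · simp only []
        push_cast
        ring
      · rfl
    · unfold wn sh
      simp only []
      rw [h1, h2]
      congr 1
      ext
      · rfl
      · simp only []
        push_cast
        ring

theorem main : PhaseS := by
  intro d m L D _ u φ hφ
  obtain ⟨A, rfl⟩ := hφ
  classical
  let K : Type := Fin D × (Fin m × Fin m → Fin d)
  let B : Site L → Fin d → K → K → K → K → ℂ := fun x s l r dn up =>
    if cond s l.2 r.2 dn.2 up.2 then A x s l.1 r.1 dn.1 up.1 * u r.2 else 0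
  have hB : (fun σ => phase u σ * contract A σ) = contract B := by
    funext σ
    unfold contract
    have hs : ∀ (F : (Site L → K) → ℂ), ∑ h, F h =
        ∑ a : Site L → Fin D, ∑ b : Site L → (Fin m × Fin m → Fin d), F (fun x => (a x, b x)) := by
      intro F
      rw [← Fintype.sum_prod_type' (f := fun (a : Site L → Fin D)
        (b : Site L → (Fin m × Fin m → Fin d)) => F (fun x => (a x, b x)))]
      let e : ((Site L → Fin D) × (Site L → (Fin m × Fin m → Fin d))) ≃ (Site L → K) :=
        { toFun := fun p x => (p.1 x, p.2 x)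
          invFun := fun h => (fun x => (h x).1, fun x => (h x).2)
          left_inv := fun _ => rfl
          right_inv := fun _ => rfl }
      exact (Fintype.sum_equiv e _ _ (fun _ => rfl)).symm
    rw [hs]
    simp only [hs]
    rw [Finset.mul_sum]
    refine Finset.sum_congr rfl fun h1 _ => ?_
    have hp : ∀ (h2 : Site L → (Fin m × Fin m → Fin d)) (v1 : Site L → Fin D)
        (v2 : Site L → (Fin m × Fin m → Fin d)),
        (∏ x : Site L, B x (σ x) (h1 (x.1 - 1, x.2), h2 (x.1 - 1, x.2)) (h1 x, h2 x)
          (v1 (x.1, x.2 - 1), v2 (x.1, x.2 - 1)) (v1 x, v2 x)) =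
        if h2 = wn σ ∧ v2 = wn σ then (∏ x : Site L, A x (σ x) (h1 (x.1 - 1, x.2)) (h1 x)
          (v1 (x.1, x.2 - 1)) (v1 x)) * phase u σ else 0 := by
      intro h2 v1 v2
      simp only [B]
      rw [Finset.prod_ite_zero]
      have h3 := cond_iff σ h2 v2
      by_cases hc : h2 = wn σ ∧ v2 = wn σ
      · rw [if_pos hc, if_pos (fun x _ => (h3.2 hc) x), Finset.prod_mul_distrib]
        congr 1
        unfold phase
        rw [hc.1]
        rfl
      · rw [if_neg hc, if_neg]
        intro hh
        exact hc (h3.1 fun x => hh x (mem_univ x))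
    simp only [hp]
    rw [Finset.sum_eq_single (wn σ)]
    · rw [Finset.mul_sum]
      refine Finset.sum_congr rfl fun v1 _ => ?_
      rw [Finset.sum_eq_single (wn σ)]
      · rw [if_pos ⟨rfl, rfl⟩, mul_comm]
      · intro v2 _ hv
        rw [if_neg]
        rintro ⟨-, h3⟩
        exact hv h3
      · intro h
        exact absurd (Finset.mem_univ _) h
    · intro h2 _ hh
      refine Finset.sum_eq_zero fun v1 _ => Finset.sum_eq_zero fun v2 _ => ?_
      rw [if_neg]
      rintro ⟨h3, -⟩
      exact hh h3
    · intro h
      exact absurd (Finset.mem_univ _) h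
  have hcard : Fintype.card K = D * d ^ m ^ 2 := by
    simp only [K, Fintype.card_prod, Fintype.card_fin, Fintype.card_fun]
    rw [sq]
  exact ⟨_, hB.trans (reindex ((Fintype.equivFin K).trans (finCongr hcard)) B)⟩

end Pool.Agent.Q181.KG.PU
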